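import Pool.Agent.Q125.GM.Main

set_option autoImplicit false

namespace Pool.Agent.Results.MP_ebd9af_co.FourCircuits

open Q125.GM

/-- The answer to Q1 is negative, for every order `n ≥ 5`: there are strong tournaments `T₁`, `T₂`
on `n` vertices and a bijection of their arc sets that maps `4`-circuits into `4`-circuits, such
that `T₂` is isomorphic neither to `T₁` nor to its converse. -/
theorem result (n : ℕ) (hn : 5 ≤ n) :
    ∃ (T₁ T₂ : Tournament (Fin n)) (φ : T₁.Arcs ≃ T₂.Arcs),
      T₁.Strong ∧ T₂.Strong ∧ MapsCircuits T₁ T₂ φ 4 ∧ ¬ Isomorphic T₂ T₁ ∧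
        ¬ Isomorphic T₂ T₁.converse :=
  main n hn

end Pool.Agent.Results.MP_ebd9af_co.FourCircuits
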